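import Pool.Agent.GTO.StmtsB3

/-! Squad GTO (MP_122998_co), module NEA: the set of the points of the configuration in the group
of the cubic is almost closed under `(g, h) ↦ -g-h`. -/

namespace Pool.Agent.GTO.B3.H26

open Finset
open scoped Classical

theorem nea (hb : BasStmt) : NeaStmt := by
  intro ι _ a c G _ φ hPI hG hS hn hD hT hZ
  obtain ⟨hb1, -, -, -, -, hb6⟩ := hb
  obtain ⟨hln, hmem, -, -, -, -, -⟩ := hb6 ι a hPI
  -- points are nonzero
  have hne : ∀ i, a i ≠ 0 := by
    intro i h0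
    have h2 : 1 < Fintype.card ι := by omega
    obtain ⟨j, hj⟩ := Fintype.exists_ne_of_one_lt_card h2 i
    apply hPI i j (Ne.symm hj)
    rw [h0]
    funext x
    fin_cases x <;> simp [cr]
  have hinj : ∀ i j, Ns c (a i) → Ns c (a j) → φ (a i) = φ (a j) → i = j := by
    intro i j hi hj h
    by_contra hij
    exact hPI i j hij ((hG.par _ _ hi hj).1 h)
  have hsing : ∀ i j, Sg c (a i) → Sg c (a j) → i = j := by
    intro i j hi hj
    by_contra hij
    exact hPI i j hij (hS.two _ _ hi hj)
  set N : Finset ι := univ.filter fun i => Ns c (a i) with hN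
  have hSS : SS a c φ = N.image fun i => φ (a i) := rfl
  have hcardS : (SS a c φ).card = N.card := by
    rw [hSS]
    apply card_image_of_injOn
    intro i hi j hj h
    have hi' : Ns c (a i) := (mem_filter.1 (mem_coe.1 hi)).2
    have hj' : Ns c (a j) := (mem_filter.1 (mem_coe.1 hj)).2
    exact hinj i j hi' hj' h
  have hsub : Zc a c ⊆ N ∪ univ.filter (fun i => Sg c (a i)) := by
    intro i hi
    have hi' : cub c (a i) = 0 := (mem_filter.1 hi).2
    rw [mem_union, hN, mem_filter, mem_filter]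
    by_cases hg : grd c (a i) = 0
    · exact Or.inr ⟨mem_univ _, hne i, hi', hg⟩
    · exact Or.inl ⟨mem_univ _, hne i, hi', hg⟩
  have hsg1 : (univ.filter (fun i => Sg c (a i))).card ≤ 1 := by
    rw [card_le_one]
    intro i hi j hj
    exact hsing i j (mem_filter.1 hi).2 (mem_filter.1 hj).2
  have hZN : (Zc a c).card ≤ N.card + 1 := by
    calc (Zc a c).card ≤ (N ∪ univ.filter (fun i => Sg c (a i))).card := card_le_card hsub
      _ ≤ N.card + (univ.filter (fun i => Sg c (a i))).card := card_union_le _ _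
      _ ≤ N.card + 1 := by omega
  have hnS : Fintype.card ι ≤ (SS a c φ).card + 236 := by omega
  refine ⟨hnS, ?_⟩
  -- the bad pairs of indices
  set B : Finset (ι × ι) := univ.filter fun p : ι × ι =>
    p.1 ∈ N ∧ p.2 ∈ N ∧ -φ (a p.1) - φ (a p.2) ∉ SS a c φ with hB
  have h1 : ((SS a c φ ×ˢ SS a c φ).filter fun p => -p.1 - p.2 ∉ SS a c φ).card ≤ B.card := by
    have hsub1 : ((SS a c φ ×ˢ SS a c φ).filter fun p => -p.1 - p.2 ∉ SS a c φ) ⊆
        B.image fun p : ι × ι => (φ (a p.1), φ (a p.2)) := by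
      intro p hp
      rw [mem_filter, mem_product] at hp
      obtain ⟨⟨hp1, hp2⟩, hp3⟩ := hp
      have hp1' := hp1
      have hp2' := hp2
      rw [hSS, mem_image] at hp1' hp2'
      obtain ⟨i, hi, hi2⟩ := hp1'
      obtain ⟨j, hj, hj2⟩ := hp2'
      rw [mem_image]
      refine ⟨(i, j), ?_, ?_⟩
      · rw [hB, mem_filter]
        refine ⟨mem_univ _, hi, hj, ?_⟩
        show -φ (a i) - φ (a j) ∉ SS a c φ
        rw [hi2, hj2]
        exact hp3
      · show (φ (a i), φ (a j)) = p
        rw [hi2, hj2]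
    exact (card_le_card hsub1).trans card_image_le
  -- three classes
  set B1 : Finset (ι × ι) := N.image fun i => (i, i) with hB1
  set B2 : Finset (ι × ι) := univ.filter (fun p : ι × ι => p.1 ≠ p.2 ∧ (ln a p.1 p.2).card ≠ 3)
    with hB2
  set B3 : Finset (ι × ι) := univ.filter (fun p : ι × ι => p.1 ∈ Zc a c ∧ p.2 ∈ Zc a c ∧
    ∃ k, k ∉ Zc a c ∧ p.1 ≠ p.2 ∧ ln a p.1 p.2 = {p.1, p.2, k}) with hB3
  have hNZ : ∀ i, i ∈ N → i ∈ Zc a c := by
    intro i hi
    exact mem_filter.2 ⟨mem_univ _, (mem_filter.1 hi).2.2.1⟩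
  have h2 : B ⊆ B1 ∪ (B2 ∪ B3) := by
    intro p hp
    rw [hB, mem_filter] at hp
    obtain ⟨-, hp1, hp2, hp3⟩ := hp
    obtain ⟨i, j⟩ := p
    dsimp only at hp1 hp2 hp3
    rw [mem_union, mem_union]
    by_cases hij : i = j
    · left
      subst hij
      rw [hB1, mem_image]
      exact ⟨i, hp1, rfl⟩
    right
    by_cases hc : (ln a i j).card = 3
    swap
    · left
      rw [hB2, mem_filter]
      exact ⟨mem_univ _, hij, hc⟩
    right
    rw [hB3, mem_filter]
    refine ⟨mem_univ _, hNZ i hp1, hNZ j hp2, ?_⟩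
    obtain ⟨hi, hj⟩ := hmem i j hij
    -- third point
    have hc2 : (((ln a i j).erase i).erase j).card = 1 := by
      rw [card_erase_of_mem (mem_erase.2 ⟨Ne.symm hij, hj⟩), card_erase_of_mem hi, hc]
    obtain ⟨k, hk⟩ := card_eq_one.1 hc2
    have hkm : k ∈ ((ln a i j).erase i).erase j := by
      rw [hk]; exact mem_singleton_self k
    have hkj : k ≠ j := (mem_erase.1 hkm).1
    have hki : k ≠ i := (mem_erase.1 (mem_erase.1 hkm).2).1
    have hkl : k ∈ ln a i j := (mem_erase.1 (mem_erase.1 hkm).2).2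
    have hlin : ln a i j = {i, j, k} := by
      ext x
      constructor
      · intro hx
        by_cases hxi : x = i
        · rw [hxi]; simp
        by_cases hxj : x = j
        · rw [hxj]; simp
        have : x ∈ ((ln a i j).erase i).erase j :=
          mem_erase.2 ⟨hxj, mem_erase.2 ⟨hxi, hx⟩⟩
        rw [hk, mem_singleton] at this
        rw [this]; simp
      · intro hx
        rw [mem_insert, mem_insert, mem_singleton] at hx
        rcases hx with h | h | h
        · rw [h]; exact hi
        · rw [h]; exact hj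
        · rw [h]; exact hkl
    refine ⟨k, ?_, hij, hlin⟩
    intro hkZ
    have hk0 : cub c (a k) = 0 := (mem_filter.1 hkZ).2
    have hdt : dt (a i) (a j) (a k) = 0 := (mem_filter.1 hkl).2
    have hNi : Ns c (a i) := (mem_filter.1 hp1).2
    have hNj : Ns c (a j) := (mem_filter.1 hp2).2
    by_cases hg : grd c (a k) = 0
    · have := hS.line (a k) (a i) (a j) ⟨hne k, hk0, hg⟩ hNi.2.1 hNj.2.1
        (hPI k i hki) (hPI k j hkj) (hPI i j hij)
      apply this
      rw [(hb1 (a k) (a i) (a j)).2.1]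
      exact hdt
    · have hNk : Ns c (a k) := ⟨hne k, hk0, hg⟩
      have h0 : φ (a i) + φ (a j) + φ (a k) = 0 :=
        (hG.col (a i) (a j) (a k) hNi hNj hNk (hPI i j hij) (hPI j k (Ne.symm hkj))
          (hPI k i hki)).1 hdt
      apply hp3
      have h1 : -φ (a i) - φ (a j) = φ (a k) := by
        have h3 : φ (a k) = -(φ (a i) + φ (a j)) := by
          exact (neg_eq_of_add_eq_zero_right h0).symm
        rw [h3]; abel
      rw [h1, hSS, mem_image]
      exact ⟨k, mem_filter.2 ⟨mem_univ _, hNk⟩, rfl⟩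
  have hc1 : B1.card ≤ (SS a c φ).card := by
    rw [hcardS]
    exact card_image_le
  have hc2 : B2.card = D2 a := rfl
  have hc3 : B3.card ≤ TT a c := by
    have hch : ∀ p : ι × ι, ∃ k, p ∈ B3 → k ∉ Zc a c ∧ p.1 ≠ p.2 ∧
        ln a p.1 p.2 = {p.1, p.2, k} := by
      intro p
      by_cases hp : p ∈ B3
      · obtain ⟨-, -, -, k, hk⟩ := mem_filter.1 hp
        exact ⟨k, fun _ => hk⟩
      · exact ⟨p.1, fun h => absurd h hp⟩
    choose K hK using hch
    have hline : ∀ p ∈ B3, ln a p.1 (K p) = {p.1, K p, p.2} := by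
      intro p hp
      obtain ⟨hk1, hk2, hk3⟩ := hK p hp
      obtain ⟨-, hp1, hp2, -⟩ := mem_filter.1 hp
      have hne1 : p.1 ≠ K p := by
        intro h
        rw [← h] at hk1
        exact hk1 hp1
      have h4 : ln a p.1 (K p) = ln a p.1 p.2 := by
        apply hln p.1 p.2 p.1 (K p) hk2 hne1
        · rw [hk3]; simp
        · rw [hk3]; simp
      rw [h4, hk3]
      ext x
      simp only [mem_insert, mem_singleton]
      tauto
    apply card_le_card_of_injOn (fun p : ι × ι => (p.1, K p))
    · intro p hp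
      have hp' : p ∈ B3 := mem_coe.1 hp
      obtain ⟨hk1, hk2, hk3⟩ := hK p hp'
      obtain ⟨-, hp1, hp2, -⟩ := mem_filter.1 hp'
      apply mem_coe.2
      apply mem_filter.2
      exact ⟨mem_univ _, hp1, hk1, p.2, hp2, Ne.symm hk2, hline p hp'⟩
    · intro p hp q hq h
      have hp' : p ∈ B3 := mem_coe.1 hp
      have hq' : q ∈ B3 := mem_coe.1 hq
      have h' : (p.1, K p) = (q.1, K q) := h
      have h1 : p.1 = q.1 := (Prod.mk.inj h').1
      have h2 : K p = K q := (Prod.mk.inj h').2
      have hl : ln a p.1 (K p) = ln a q.1 (K q) := by rw [h1, h2]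
      rw [hline p hp', hline q hq'] at hl
      obtain ⟨hk1, hk2, hk3⟩ := hK p hp'
      obtain ⟨-, hp1, hp2, -⟩ := mem_filter.1 hp'
      have hm : p.2 ∈ ({q.1, K q, q.2} : Finset ι) := by
        rw [← hl]; simp
      rw [mem_insert, mem_insert, mem_singleton] at hm
      rcases hm with h3 | h3 | h3
      · exact absurd (h1.trans h3.symm) hk2
      · exfalso
        apply hk1
        rw [h2, ← h3]
        exact hp2
      · exact Prod.ext h1 h3
  have hB' : B.card ≤ (SS a c φ).card + (D2 a + TT a c) := by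
    calc B.card ≤ (B1 ∪ (B2 ∪ B3)).card := card_le_card h2
      _ ≤ B1.card + (B2 ∪ B3).card := card_union_le _ _
      _ ≤ B1.card + (B2.card + B3.card) := Nat.add_le_add_left (card_union_le _ _) _
      _ ≤ (SS a c φ).card + (D2 a + TT a c) := by
        rw [hc2]
        omega
  omega

end Pool.Agent.GTO.B3.H26
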