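import Pool.Agent.GTO.StmtsB3

/-! Squad GTO, threshold 30000, row YBD. -/

set_option autoImplicit false

namespace Pool.Agent.GTO.B3.H26

open Finset
open scoped Classical

theorem ybd_arith (x y D t : ℕ) (h1 : 30000 ≤ x + y) (h2 : D ≤ 2 * (x + y))
    (h3 : 4 * t ≤ 448 * D) (h4 : 2 * y + 460 ≤ x + y)
    (h5 : 2 * (x * y) ≤ 2 * t + D + 2 * (y * (y - 1))) : y ≤ 235 := by
  by_contra hno
  push Not at hno
  obtain ⟨z, rfl⟩ : ∃ z, y = z + 236 := ⟨y - 236, by omega⟩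
  obtain ⟨w, rfl⟩ : ∃ w, x = w + (z + 236) + 460 := ⟨x - (z + 236) - 460, by omega⟩
  have e : z + 236 - 1 = z + 235 := by omega
  rw [e] at h5
  nlinarith [Nat.zero_le (z * w), Nat.zero_le z, Nat.zero_le w]

theorem ybd (hL : LowStmt) : YbdStmt := by
  intro ι _ a c hP hn hD hT hy
  have h1 := hL ι a c hP
  have hx : (Zc a c).card ≤ Fintype.card ι := Finset.card_le_univ _
  obtain ⟨y, hyy⟩ : ∃ y, y = Fintype.card ι - (Zc a c).card := ⟨_, rfl⟩
  rw [← hyy] at h1 hy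
  have e : Fintype.card ι = (Zc a c).card + y := by omega
  rw [e] at hn hD hy ⊢
  have := ybd_arith (Zc a c).card y (D2 a) (TT a c) hn hD hT hy h1
  omega

end Pool.Agent.GTO.B3.H26
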